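import Pool.Agent.Q248.FF.Stm

/-!
# First Fit for vector bin packing: comparison of First Fit and the optimum
-/

set_option autoImplicit false

open MeasureTheory ProbabilityTheory Filter

namespace Pool.Agent.Q125.FF

open Pool.Agent.Q248.FF

theorem load_succ {d : ℕ} (v : ℕ → Fin d → ℝ) (t b : ℕ) (j : Fin d) :
    load v (t + 1) b j = load v t b j + (if assign v t = b then v t j else 0) := by
  unfold load
  rw [Finset.sum_filter, Finset.sum_filter, Finset.sum_range_succ]

theorem load_zero {d : ℕ} (v : ℕ → Fin d → ℝ) (b : ℕ) (j : Fin d) : load v 0 b j = 0 := by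
  simp [load]

theorem load_nonneg {d : ℕ} (v : ℕ → Fin d → ℝ) (hv : Items v) (t b : ℕ) (j : Fin d) :
    0 ≤ load v t b j := by
  unfold load
  exact Finset.sum_nonneg (fun i _ => (hv i j).1)

theorem load_mono {d : ℕ} (v : ℕ → Fin d → ℝ) (hv : Items v) {s t : ℕ} (h : s ≤ t) (b : ℕ)
    (j : Fin d) : load v s b j ≤ load v t b j := by
  unfold load
  refine Finset.sum_le_sum_of_subset_of_nonneg ?_ (fun i _ _ => (hv i j).1)
  intro i hi
  simp only [Finset.mem_filter, Finset.mem_range] at hi ⊢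
  exact ⟨lt_of_lt_of_le hi.1 h, hi.2⟩

theorem load_le_one (h : S_REC) {d : ℕ} (v : ℕ → Fin d → ℝ) (hv : Items v) (b : ℕ) (j : Fin d) :
    ∀ t, load v t b j ≤ 1 := by
  intro t
  induction t with
  | zero => rw [load_zero]; exact zero_le_one
  | succ t ih =>
    rw [load_succ]
    by_cases hb : assign v t = b
    · rw [if_pos hb]
      have h1 := (h d v hv).1 t j
      rw [hb] at h1
      exact h1
    · rw [if_neg hb, add_zero]
      exact ih

theorem load_eq_fin {d : ℕ} (v : ℕ → Fin d → ℝ) (n b : ℕ) (j : Fin d) :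
    ∑ i : Fin n, (if assign v i = b then v i j else 0) = load v n b j := by
  unfold load
  rw [Finset.sum_filter, ← Fin.sum_univ_eq_sum_range (fun i => if assign v i = b then v i j else 0)]

/-- `k` bins suffice -/
def Packs {d : ℕ} (v : ℕ → Fin d → ℝ) (n k : ℕ) : Prop :=
  ∃ g : Fin n → Fin k, ∀ b j, ∑ i : Fin n, (if g i = b then v i j else 0) ≤ 1

theorem packs_ff (h : S_REC) {d : ℕ} (v : ℕ → Fin d → ℝ) (hv : Items v) (n : ℕ) :
    Packs v n (ff v n) := by
  have h3 := (h d v hv).2.2 n
  have hlt : ∀ i : Fin n, assign v i < ff v n := by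
    intro i
    rw [← Finset.mem_range, ← h3]
    exact Finset.mem_image_of_mem _ (Finset.mem_range.2 i.isLt)
  refine ⟨fun i => ⟨assign v i, hlt i⟩, fun b j => ?_⟩
  have h4 : ∑ i : Fin n, (if (⟨assign v i, hlt i⟩ : Fin (ff v n)) = b then v i j else 0) =
      load v n b j := by
    rw [← load_eq_fin]
    refine Finset.sum_congr rfl (fun i _ => ?_)
    by_cases hb : assign v i = b
    · rw [if_pos hb, if_pos (Fin.ext hb)]
    · rw [if_neg hb, if_neg (fun e => hb (congrArg Fin.val e))]
  rw [h4]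
  exact load_le_one h v hv b j n

theorem sum_bins (h : S_REC) {d : ℕ} (v : ℕ → Fin d → ℝ) (hv : Items v) (n : ℕ) (j : Fin d) :
    ∑ b ∈ Finset.range (ff v n), load v n b j = ∑ i ∈ Finset.range n, v i j := by
  have h3 := (h d v hv).2.2 n
  unfold load
  apply Finset.sum_fiberwise_of_maps_to
  intro i hi
  rw [← h3]
  exact Finset.mem_image_of_mem _ hi

theorem pair_sum (T : ℕ → ℝ) (m : ℕ) (hT : ∀ i < m, 1 ≤ T (2 * i) + T (2 * i + 1)) :
    (m : ℝ) ≤ ∑ b ∈ Finset.range (2 * m), T b := by
  induction m with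
  | zero => simp
  | succ m ih =>
    have h1 := ih (fun i hi => hT i (Nat.lt_succ_of_lt hi))
    have h2 := hT m (Nat.lt_succ_self m)
    have h3 : 2 * (m + 1) = 2 * m + 1 + 1 := by ring
    rw [h3, Finset.sum_range_succ, Finset.sum_range_succ]
    push_cast
    linarith

theorem sum_le_opt {d : ℕ} (v : ℕ → Fin d → ℝ) (n k : ℕ) (hk : Packs v n k) :
    ∑ j, ∑ i ∈ Finset.range n, v i j ≤ (d : ℝ) * k := by
  obtain ⟨g, hg⟩ := hk
  have h1 : ∀ j : Fin d, ∑ i ∈ Finset.range n, v i j ≤ k := by
    intro j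
    rw [← Fin.sum_univ_eq_sum_range (fun i => v i j)]
    have h2 : ∑ i : Fin n, v i j = ∑ b : Fin k, ∑ i : Fin n, (if g i = b then v i j else 0) := by
      rw [Finset.sum_comm]
      refine Finset.sum_congr rfl (fun i _ => ?_)
      rw [Finset.sum_ite_eq]
      simp
    rw [h2]
    calc ∑ b : Fin k, ∑ i : Fin n, (if g i = b then v i j else 0) ≤ ∑ _b : Fin k, (1 : ℝ) :=
          Finset.sum_le_sum (fun b _ => hg b j)
      _ = k := by simp
  calc ∑ j, ∑ i ∈ Finset.range n, v i j ≤ ∑ _j : Fin d, (k : ℝ) :=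
        Finset.sum_le_sum (fun j _ => h1 j)
    _ = (d : ℝ) * k := by simp

theorem pair_ge (h : S_REC) {d : ℕ} (v : ℕ → Fin d → ℝ) (hv : Items v) (n b b' : ℕ)
    (hb : b < b') (hb' : b' < ff v n) :
    1 ≤ (∑ j, load v n b j) + ∑ j, load v n b' j := by
  have h3 := (h d v hv).2.2 n
  have h4 : b' ∈ (Finset.range n).image (assign v) := by
    rw [h3]; exact Finset.mem_range.2 hb'
  obtain ⟨t, ht, htb⟩ := Finset.mem_image.1 h4
  rw [Finset.mem_range] at ht
  have h5 : b < assign v t := by rw [htb]; exact hb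
  obtain ⟨j, hj⟩ := (h d v hv).2.1 t b h5
  have h6 : load v t b j ≤ load v n b j := load_mono v hv ht.le b j
  have h7 : v t j ≤ load v n b' j := by
    have h8 : load v (t + 1) b' j ≤ load v n b' j := load_mono v hv ht b' j
    rw [load_succ, if_pos htb] at h8
    have := load_nonneg v hv t b' j
    linarith
  have h9 : load v n b j ≤ ∑ j, load v n b j :=
    Finset.single_le_sum (f := fun j => load v n b j) (fun j _ => load_nonneg v hv n b j)
      (Finset.mem_univ j)
  have h10 : load v n b' j ≤ ∑ j, load v n b' j :=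
    Finset.single_le_sum (f := fun j => load v n b' j) (fun j _ => load_nonneg v hv n b' j)
      (Finset.mem_univ j)
  linarith

theorem opt_packs (h : S_REC) {d : ℕ} (v : ℕ → Fin d → ℝ) (hv : Items v) (n : ℕ) :
    Packs v n (opt v n) := by
  have hne : {k : ℕ | ∃ g : Fin n → Fin k, ∀ b j,
      ∑ i : Fin n, (if g i = b then v i j else 0) ≤ 1}.Nonempty := ⟨ff v n, packs_ff h v hv n⟩
  exact Nat.sInf_mem hne

theorem t_CMP (h : S_REC) : S_CMP := by
  intro d n v hv
  refine ⟨?_, ?_, ?_⟩
  · unfold opt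
    exact Nat.sInf_le (packs_ff h v hv n)
  · have h1 : ((ff v n / 2 : ℕ) : ℝ) ≤ ∑ b ∈ Finset.range (2 * (ff v n / 2)),
        ∑ j, load v n b j := by
      apply pair_sum
      intro i hi
      exact pair_ge h v hv n _ _ (Nat.lt_succ_self _) (by omega)
    have h2 : ∑ b ∈ Finset.range (2 * (ff v n / 2)), ∑ j, load v n b j ≤
        ∑ b ∈ Finset.range (ff v n), ∑ j, load v n b j := by
      refine Finset.sum_le_sum_of_subset_of_nonneg ?_
        (fun b _ _ => Finset.sum_nonneg (fun j _ => load_nonneg v hv n b j))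
      intro b hb
      rw [Finset.mem_range] at hb ⊢
      omega
    have h3 : ∑ b ∈ Finset.range (ff v n), ∑ j, load v n b j =
        ∑ j, ∑ i ∈ Finset.range n, v i j := by
      rw [Finset.sum_comm]
      exact Finset.sum_congr rfl (fun j _ => sum_bins h v hv n j)
    have h4 := sum_le_opt v n _ (opt_packs h v hv n)
    have h5 : ((ff v n / 2 : ℕ) : ℝ) ≤ ((d * opt v n : ℕ) : ℝ) := by
      push_cast
      push_cast at h1
      linarith
    have h6 : ff v n / 2 ≤ d * opt v n := by exact_mod_cast h5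
    have h7 : 2 * d * opt v n = 2 * (d * opt v n) := by ring
    omega
  · intro hn
    by_contra h0
    have h1 : opt v n = 0 := by omega
    obtain ⟨g, -⟩ := opt_packs h v hv n
    rw [h1] at g
    exact (g ⟨0, hn⟩).elim0

end Pool.Agent.Q125.FF
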