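import Pool.Agent.Q248.FF.Stm

/-!
# First Fit for vector bin packing: measurability
-/

set_option autoImplicit false

open MeasureTheory ProbabilityTheory Filter

namespace Pool.Agent.Q125.FF

open Pool.Agent.Q248.FF

theorem meas_sInf {Ω : Type} [MeasurableSpace Ω] (p : Ω → ℕ → Prop)
    (hp : ∀ b, MeasurableSet {ω | p ω b}) : Measurable (fun ω => sInf {b | p ω b}) := by
  apply measurable_to_countable'
  intro k
  have key : (fun ω => sInf {b | p ω b}) ⁻¹' {k} =
      ({ω | p ω k} ∩ ⋂ j ∈ Finset.range k, {ω | p ω j}ᶜ) ∪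
        ({ω : Ω | k = 0} ∩ ⋂ b : ℕ, {ω | p ω b}ᶜ) := by
    ext ω
    simp only [Set.mem_preimage, Set.mem_singleton_iff, Set.mem_union, Set.mem_inter_iff,
      Set.mem_ofPred_eq, Set.mem_iInter, Set.mem_compl_iff, Finset.mem_range]
    constructor
    · intro h
      by_cases hne : {b | p ω b}.Nonempty
      · left
        have h1 := Nat.sInf_mem hne
        rw [h] at h1
        refine ⟨h1, fun j hj hpj => ?_⟩
        have h2 : sInf {b | p ω b} ≤ j := Nat.sInf_le hpj
        omega
      · right
        rw [Set.not_nonempty_iff_eq_empty] at hne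
        rw [hne] at h
        refine ⟨?_, fun b hb => ?_⟩
        · simpa using h.symm
        · have : b ∈ ({b | p ω b} : Set ℕ) := hb
          rw [hne] at this
          exact this
    · rintro (⟨h1, h2⟩ | ⟨h1, h2⟩)
      · apply le_antisymm
        · exact Nat.sInf_le h1
        · by_contra hlt
          push Not at hlt
          have hne : {b | p ω b}.Nonempty := ⟨k, h1⟩
          exact h2 _ hlt (Nat.sInf_mem hne)
      · have : {b | p ω b} = ∅ := by
          ext b
          simp [h2 b]
        rw [this, h1]
        simp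
  rw [key]
  refine MeasurableSet.union (MeasurableSet.inter (hp k) ?_) (MeasurableSet.inter ?_ ?_)
  · exact Finset.measurableSet_biInter _ (fun j _ => (hp j).compl)
  · exact MeasurableSet.const _
  · exact MeasurableSet.iInter (fun b => (hp b).compl)

theorem meas_assign {d : ℕ} {Ω : Type} [MeasurableSpace Ω] (X : ℕ → Ω → Fin d → ℝ)
    (hX : ∀ i, Measurable (X i)) : ∀ t, Measurable (fun ω => assign (fun i => X i ω) t) := by
  intro t
  induction t using Nat.strong_induction_on with
  | _ t ih =>
    have h1 : (fun ω => assign (fun i => X i ω) t) =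
        fun ω => sInf {b : ℕ | ∀ j, (∑ i : Fin t, if assign (fun i => X i ω) i = b then
          X i ω j else 0) + X t ω j ≤ 1} := by
      funext ω
      rw [assign]
    rw [h1]
    apply meas_sInf
    intro b
    have h2 : {ω | ∀ j, (∑ i : Fin t, if assign (fun i => X i ω) i = b then
          X i ω j else 0) + X t ω j ≤ 1} =
        ⋂ j, {ω | (∑ i : Fin t, if assign (fun i => X i ω) i = b then
          X i ω j else 0) + X t ω j ≤ 1} := by
      ext ω
      simp
    rw [h2]
    refine MeasurableSet.iInter (fun j => measurableSet_le ?_ measurable_const)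
    refine Measurable.add ?_ ?_
    · refine Finset.measurable_sum _ (fun i _ => ?_)
      refine Measurable.ite ?_ ?_ measurable_const
      · exact (ih i i.isLt) (measurableSet_singleton b)
      · exact (measurable_pi_apply j).comp (hX i)
    · exact (measurable_pi_apply j).comp (hX t)

theorem meas_ff {d : ℕ} {Ω : Type} [MeasurableSpace Ω] (X : ℕ → Ω → Fin d → ℝ)
    (hX : ∀ i, Measurable (X i)) (n : ℕ) : Measurable (fun ω => ff (fun i => X i ω) n) := by
  have h1 : (fun ω => ff (fun i => X i ω) n) =
      (fun a : Fin n → ℕ => (Finset.univ.image a).card) ∘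
        (fun ω => fun i : Fin n => assign (fun i => X i ω) i) := by
    funext ω
    simp only [ff, Function.comp]
    congr 1
    ext b
    simp only [Finset.mem_image, Finset.mem_range, Finset.mem_univ, true_and]
    constructor
    · rintro ⟨a, ha, hb⟩
      exact ⟨⟨a, ha⟩, hb⟩
    · rintro ⟨a, hb⟩
      exact ⟨a, a.isLt, hb⟩
  rw [h1]
  refine Measurable.comp Measurable.of_discrete ?_
  exact measurable_pi_lambda _ (fun i => meas_assign X hX i)

theorem meas_opt {d : ℕ} {Ω : Type} [MeasurableSpace Ω] (X : ℕ → Ω → Fin d → ℝ)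
    (hX : ∀ i, Measurable (X i)) (n : ℕ) : Measurable (fun ω => opt (fun i => X i ω) n) := by
  unfold opt
  apply meas_sInf
  intro k
  have h2 : {ω | ∃ g : Fin n → Fin k, ∀ b j, ∑ i : Fin n, (if g i = b then X i ω j else 0) ≤ 1} =
      ⋃ g : Fin n → Fin k, ⋂ b, ⋂ j, {ω | ∑ i : Fin n, (if g i = b then X i ω j else 0) ≤ 1} := by
    ext ω
    simp
  rw [h2]
  refine MeasurableSet.iUnion (fun g => MeasurableSet.iInter (fun b =>
    MeasurableSet.iInter (fun j => measurableSet_le ?_ measurable_const)))
  refine Finset.measurable_sum _ (fun i _ => ?_)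
  by_cases h : g i = b
  · simp only [h, if_true]
    exact (measurable_pi_apply j).comp (hX i)
  · simp only [h, if_false]
    exact measurable_const

theorem t_MEAS : S_MEAS := by
  intro d Ω _ X hX n
  exact ⟨meas_ff X hX n, meas_opt X hX n⟩

end Pool.Agent.Q125.FF
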