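import Pool.Agent.Q248.FF.Stm

/-!
# First Fit for vector bin packing: good events have probability tending to one
-/

set_option autoImplicit false

open MeasureTheory ProbabilityTheory Filter

namespace Pool.Agent.Q125.FF

open Pool.Agent.Q248.FF

/-- the cell `a` of mesh `1 / H` -/
def box {d : ℕ} (H : ℕ) (a : Fin d → Fin H) : Set (Fin d → ℝ) :=
  {x | ∀ j, ((a j : ℕ) : ℝ) ≤ H * x j ∧ H * x j < ((a j : ℕ) : ℝ) + 1}

theorem box_eq {d : ℕ} {H : ℕ} (hH : 0 < H) (a : Fin d → Fin H) :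
    box H a = Set.univ.pi (fun j => Set.Ico (((a j : ℕ) : ℝ) / H) ((((a j : ℕ) : ℝ) + 1) / H)) := by
  have hH' : (0 : ℝ) < H := by exact_mod_cast hH
  ext x
  simp only [box, Set.mem_ofPred_eq, Set.mem_pi, Set.mem_univ, true_implies, Set.mem_Ico]
  refine forall_congr' (fun j => ?_)
  rw [div_le_iff₀ hH', lt_div_iff₀ hH', mul_comm (x j)]

theorem meas_box {d : ℕ} {H : ℕ} (hH : 0 < H) (a : Fin d → Fin H) : MeasurableSet (box H a) := by
  rw [box_eq hH]
  exact MeasurableSet.univ_pi (fun j => measurableSet_Ico)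

theorem box_sub {d : ℕ} {H : ℕ} (hH : 0 < H) (a : Fin d → Fin H) : box H a ⊆ Set.Icc 0 1 := by
  have hH' : (0 : ℝ) < H := by exact_mod_cast hH
  rw [box_eq hH]
  intro x hx
  simp only [Set.mem_pi, Set.mem_univ, true_implies, Set.mem_Ico] at hx
  constructor
  · intro j
    exact le_trans (by positivity) (hx j).1
  · intro j
    refine le_trans (hx j).2.le ?_
    rw [div_le_iff₀ hH']
    have h1 : ((a j : ℕ) : ℝ) + 1 ≤ H := by exact_mod_cast (a j).isLt
    simpa using h1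

theorem vol_box {d : ℕ} {H : ℕ} (hH : 0 < H) (a : Fin d → Fin H) :
    volume (box H a) = ENNReal.ofReal (1 / (H : ℝ) ^ d) := by
  have hH' : (0 : ℝ) < H := by exact_mod_cast hH
  rw [box_eq hH, Real.volume_pi_Ico]
  have h1 : ∀ j : Fin d, ENNReal.ofReal ((((a j : ℕ) : ℝ) + 1) / H - ((a j : ℕ) : ℝ) / H) =
      ENNReal.ofReal (1 / H) := by
    intro j
    congr 1
    ring
  rw [Finset.prod_congr rfl (fun j _ => h1 j), Finset.prod_const, Finset.card_univ,
    Fintype.card_fin, ← ENNReal.ofReal_pow (by positivity)]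
  congr 1
  rw [one_div, one_div, inv_pow]

section

variable {d : ℕ} {Ω : Type} [MeasurableSpace Ω] {P : Measure Ω} [IsProbabilityMeasure P]
  {X : ℕ → Ω → Fin d → ℝ}

theorem prob_box (hX : ∀ i, Measurable (X i))
    (hl : ∀ i, P.map (X i) = volume.restrict (Set.Icc 0 1)) {H : ℕ} (hH : 0 < H)
    (a : Fin d → Fin H) (i : ℕ) : P (X i ⁻¹' box H a) = ENNReal.ofReal (1 / (H : ℝ) ^ d) := by
  rw [← Measure.map_apply (hX i) (meas_box hH a), hl i,
    Measure.restrict_apply (meas_box hH a), Set.inter_eq_left.2 (box_sub hH a), vol_box hH]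

/-- the indicator of the cell -/
noncomputable def ind {d : ℕ} (H : ℕ) (a : Fin d → Fin H) (x : Fin d → ℝ) : ℝ :=
  (box H a).indicator 1 x

theorem meas_ind {H : ℕ} (hH : 0 < H) (a : Fin d → Fin H) : Measurable (ind H a) :=
  measurable_one.indicator (meas_box hH a)

theorem ind_mem {H : ℕ} (a : Fin d → Fin H) (x : Fin d → ℝ) : ind H a x ∈ Set.Icc (0 : ℝ) 1 := by
  unfold ind
  by_cases h : x ∈ box H a
  · rw [Set.indicator_of_mem h]; simp
  · rw [Set.indicator_of_notMem h]; simp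

theorem NN_eq {H : ℕ} (L k : ℕ) (a : Fin d → Fin H) (v : ℕ → Fin d → ℝ) :
    (NN H L v k a : ℝ) = ∑ i ∈ Finset.Ico (k * L) ((k + 1) * L), ind H a (v i) := by
  classical
  unfold NN
  rw [Finset.card_filter]
  push_cast
  refine Finset.sum_congr rfl (fun i _ => ?_)
  unfold ind
  by_cases h : v i ∈ box H a
  · have h' : ∀ j, ((a j : ℕ) : ℝ) ≤ H * v i j ∧ H * v i j < ((a j : ℕ) : ℝ) + 1 := h
    rw [Set.indicator_of_mem h, if_pos h']; rfl
  · have h' : ¬ ∀ j, ((a j : ℕ) : ℝ) ≤ H * v i j ∧ H * v i j < ((a j : ℕ) : ℝ) + 1 := h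
    rw [Set.indicator_of_notMem h, if_neg h']

theorem mean_ind (hX : ∀ i, Measurable (X i))
    (hl : ∀ i, P.map (X i) = volume.restrict (Set.Icc 0 1)) {H : ℕ} (hH : 0 < H)
    (a : Fin d → Fin H) (i : ℕ) : ∫ ω, ind H a (X i ω) ∂P = 1 / (H : ℝ) ^ d := by
  have h1 : (fun ω => ind H a (X i ω)) = (X i ⁻¹' box H a).indicator 1 := by
    funext ω
    unfold ind
    rfl
  rw [h1, integral_indicator_one ((hX i) (meas_box hH a)), Measure.real, prob_box hX hl hH,
    ENNReal.toReal_ofReal (by positivity)]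

theorem memLp_ind (hX : ∀ i, Measurable (X i)) {H : ℕ} (hH : 0 < H)
    (a : Fin d → Fin H) (i : ℕ) : MemLp (fun ω => ind H a (X i ω)) 2 P :=
  memLp_of_bounded (a := 0) (b := 1) (Eventually.of_forall (fun ω => ind_mem a (X i ω)))
    ((meas_ind hH a).comp (hX i)).aestronglyMeasurable 2

theorem cell_bound (hX : ∀ i, Measurable (X i)) (hi : iIndepFun X P)
    (hl : ∀ i, P.map (X i) = volume.restrict (Set.Icc 0 1)) {H : ℕ} (hH : 0 < H)
    (k : ℕ) (a : Fin d → Fin H) {ε : ℝ} (hε : 0 < ε) {L : ℕ} (hL : 0 < L) :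
    P {ω | ¬ |(NN H L (fun i => X i ω) k a : ℝ) - L / (H : ℝ) ^ d| ≤ ε * (L / (H : ℝ) ^ d)} ≤
      ENNReal.ofReal (((H : ℝ) ^ d / ε) ^ 2 * (1 / (L : ℝ))) := by
  have hH' : (0 : ℝ) < H := by exact_mod_cast hH
  have hL' : (0 : ℝ) < L := by exact_mod_cast hL
  set I : Finset ℕ := Finset.Ico (k * L) ((k + 1) * L) with hI
  have hcard : I.card = L := by
    rw [hI, Nat.card_Ico]
    have : (k + 1) * L = k * L + L := by ring
    omega
  set Y : ℕ → Ω → ℝ := fun i ω => ind H a (X i ω) with hY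
  have hYm : ∀ i, Measurable (Y i) := fun i => (meas_ind hH a).comp (hX i)
  have hYL : ∀ i, MemLp (Y i) 2 P := fun i => memLp_ind hX hH a i
  have hYi : iIndepFun Y P := by
    have := hi.comp (fun _ => ind H a) (fun _ => meas_ind hH a)
    exact this
  have hvar : Var[∑ i ∈ I, Y i; P] ≤ L := by
    rw [IndepFun.variance_sum (fun i _ => hYL i)
      (fun i _ j _ hij => hYi.indepFun hij)]
    calc ∑ i ∈ I, Var[Y i; P] ≤ ∑ _i ∈ I, (1 : ℝ) := by
          refine Finset.sum_le_sum (fun i _ => ?_)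
          have h1 := variance_le_sq_of_bounded (μ := P) (a := 0) (b := 1) (X := Y i)
            (Eventually.of_forall (fun ω => ind_mem a (X i ω))) (hYm i).aemeasurable
          refine le_trans h1 (by norm_num)
      _ = L := by rw [Finset.sum_const, hcard]; simp
  have hmean : ∫ ω, (∑ i ∈ I, Y i) ω ∂P = L / (H : ℝ) ^ d := by
    have h1 : ∀ i ∈ I, Integrable (Y i) P := fun i _ => (hYL i).integrable (by norm_num)
    have h2 : (fun ω => (∑ i ∈ I, Y i) ω) = fun ω => ∑ i ∈ I, Y i ω := by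
      funext ω
      simp
    rw [h2, integral_finsetSum I h1]
    have h3 : ∀ i ∈ I, ∫ ω, Y i ω ∂P = 1 / (H : ℝ) ^ d := fun i _ => mean_ind hX hl hH a i
    rw [Finset.sum_congr rfl h3, Finset.sum_const, hcard]
    simp
    ring
  have hc : 0 < ε * (L / (H : ℝ) ^ d) := by positivity
  have hche := meas_ge_le_variance_div_sq (μ := P) (X := ∑ i ∈ I, Y i)
    (memLp_finsetSum' I (fun i _ => hYL i)) hc
  refine le_trans (measure_mono ?_) (le_trans hche ?_)
  · intro ω hω
    simp only [Set.mem_ofPred_eq, not_le] at hω ⊢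
    rw [hmean]
    rw [NN_eq] at hω
    have h2 : (∑ i ∈ I, Y i) ω = ∑ i ∈ I, ind H a (X i ω) := by
      simp [hY]
    rw [h2]
    exact hω.le
  · apply ENNReal.ofReal_le_ofReal
    calc Var[∑ i ∈ I, Y i; P] / (ε * (L / (H : ℝ) ^ d)) ^ 2 ≤ L / (ε * (L / (H : ℝ) ^ d)) ^ 2 := by
          gcongr
      _ = ((H : ℝ) ^ d / ε) ^ 2 * (1 / (L : ℝ)) := by
          field_simp

theorem t_PROB : S_PROB := by
  intro d Ω _ P _ X hX hi hl H K ε hH hK hε
  have hcell : ∀ (k : ℕ) (a : Fin d → Fin H), Tendsto (fun L : ℕ =>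
      P {ω | ¬ |(NN H L (fun i => X i ω) k a : ℝ) - L / (H : ℝ) ^ d| ≤ ε * (L / (H : ℝ) ^ d)})
      atTop (nhds 0) := by
    intro k a
    have h1 : Tendsto (fun L : ℕ => ENNReal.ofReal (((H : ℝ) ^ d / ε) ^ 2 * (1 / (L : ℝ))))
        atTop (nhds 0) := by
      have h2 : Tendsto (fun L : ℕ => ((H : ℝ) ^ d / ε) ^ 2 * (1 / (L : ℝ))) atTop
          (nhds (((H : ℝ) ^ d / ε) ^ 2 * 0)) :=
        Tendsto.const_mul _ tendsto_one_div_atTop_nhds_zero_nat
      rw [mul_zero] at h2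
      have h3 := ENNReal.tendsto_ofReal h2
      rwa [ENNReal.ofReal_zero] at h3
    refine tendsto_of_tendsto_of_tendsto_of_le_of_le' tendsto_const_nhds h1
      (Eventually.of_forall (fun L => bot_le)) ?_
    filter_upwards [eventually_gt_atTop 0] with L hL
    exact cell_bound hX hi hl hH k a hε hL
  have hsum : Tendsto (fun L : ℕ => ∑ k ∈ Finset.range K, ∑ a : Fin d → Fin H,
      P {ω | ¬ |(NN H L (fun i => X i ω) k a : ℝ) - L / (H : ℝ) ^ d| ≤ ε * (L / (H : ℝ) ^ d)})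
      atTop (nhds 0) := by
    have h1 := tendsto_finsetSum (Finset.range K) (fun k _ =>
      tendsto_finsetSum (Finset.univ : Finset (Fin d → Fin H)) (fun a _ => hcell k a))
    simpa using h1
  refine tendsto_of_tendsto_of_tendsto_of_le_of_le tendsto_const_nhds hsum
    (fun L => bot_le) (fun L => ?_)
  have hsub : {ω | ¬ Good H L K ε (fun i => X i ω)} ⊆ ⋃ k ∈ Finset.range K,
      ⋃ a ∈ (Finset.univ : Finset (Fin d → Fin H)),
      {ω | ¬ |(NN H L (fun i => X i ω) k a : ℝ) - L / (H : ℝ) ^ d| ≤ ε * (L / (H : ℝ) ^ d)} := by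
    intro ω hω
    simp only [Set.mem_ofPred_eq] at hω
    unfold Good at hω
    push Not at hω
    obtain ⟨k, hk, a, ha⟩ := hω
    simp only [Set.mem_iUnion]
    exact ⟨k, Finset.mem_range.2 hk, a, Finset.mem_univ _, not_le.2 ha⟩
  refine le_trans (measure_mono hsub) ?_
  refine le_trans (measure_biUnion_finset_le _ _) ?_
  exact Finset.sum_le_sum (fun k _ => measure_biUnion_finset_le _ _)

end

end Pool.Agent.Q125.FF
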